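import Mathlib

/-!
# Concrete singular chains: definitions
-/

namespace Pool.Agent.Helper82.Sing

/-- The standard topological simplex of dimension `m`. -/
abbrev Simp (m : ℕ) : Type := stdSimplex ℝ (Fin (m + 1))

/-- The map of standard simplices induced by a map of vertices, as a continuous map. -/
noncomputable def simpMap {n m : ℕ} (f : Fin (n + 1) → Fin (m + 1)) : C(Simp n, Simp m) :=
  ⟨stdSimplex.map f, stdSimplex.continuous_map f⟩

/-- Singular simplices of dimension `n` of the space `X`. -/
abbrev Sx (X : Type) [TopologicalSpace X] (n : ℕ) : Type := C(Simp n, X)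

variable {X : Type} [TopologicalSpace X]

/-- The `i`-th face of a singular simplex. -/
noncomputable def face {n : ℕ} (σ : Sx X (n + 1)) (i : Fin (n + 2)) : Sx X n :=
  σ.comp (simpMap i.succAbove)

/-- The boundary operator on rational singular chains. -/
noncomputable def bd (X : Type) [TopologicalSpace X] (n : ℕ) :
    (Sx X (n + 1) →₀ ℚ) →ₗ[ℚ] (Sx X n →₀ ℚ) :=
  Finsupp.linearCombination ℚ (fun σ : Sx X (n + 1) =>
    ∑ i : Fin (n + 2), (-1 : ℚ) ^ (i : ℕ) • Finsupp.single (face σ i) (1 : ℚ))

theorem bd_single {n : ℕ} (σ : Sx X (n + 1)) :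
    bd X n (Finsupp.single σ 1) =
      ∑ i : Fin (n + 2), (-1 : ℚ) ^ (i : ℕ) • Finsupp.single (face σ i) (1 : ℚ) := by
  simp [bd]

/-- Simplices inside `U` or inside `V`. -/
def small (U V : Set X) (n : ℕ) : Set (Sx X n) :=
  {σ | Set.range σ ⊆ U ∨ Set.range σ ⊆ V}

end Pool.Agent.Helper82.Sing
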