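import Mathlib

open MeasureTheory ProbabilityTheory

namespace Pool.Agent.Helper82.Monster

/-- `T^j`: the reduced words of length `j` in the letters `x₁^{±1}, …, x_k^{±1}`. -/
def RedWord (k j : ℕ) : Type :=
  {L : List (Fin k × Bool) // L.length = j ∧ FreeGroup.IsReduced L}

/-- All subsets of the finite set `T^j` are measurable. -/
instance (k j : ℕ) : MeasurableSpace (RedWord k j) := ⊤

/-- The element of the free group `F_k` represented by a reduced word. -/
def RedWord.toFree {k j : ℕ} (w : RedWord k j) : FreeGroup (Fin k) := FreeGroup.mk w.1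

/-- An orientation of a graph: one of the two orientations of every edge is chosen. -/
structure Orientation {V : Type} (G : SimpleGraph V) where
  dart : G.edgeSet → G.Dart
  edge_dart : ∀ e, (dart e).edge = e.1

open Classical in
/-- The element of `F_k` read along an oriented edge: the label if the edge is traversed in its
chosen orientation, and the inverse of the label otherwise. -/
noncomputable def dartLabel {V : Type} {G : SimpleGraph V} {k j : ℕ} (o : Orientation G)
    (α : G.edgeSet → RedWord k j) (d : G.Dart) : FreeGroup (Fin k) :=
  if o.dart ⟨d.edge, d.edge_mem⟩ = d then (α ⟨d.edge, d.edge_mem⟩).toFree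
  else (α ⟨d.edge, d.edge_mem⟩).toFree⁻¹

/-- The element of `F_k` read along a walk. -/
noncomputable def walkLabel {V : Type} {G : SimpleGraph V} {k j : ℕ} (o : Orientation G)
    (α : G.edgeSet → RedWord k j) {u v : V} (p : G.Walk u v) : FreeGroup (Fin k) :=
  (p.darts.map (dartLabel o α)).prod

variable {V : ℕ → Type}

/-- `𝒜(Ω, T^j)`: a labelling of a sequence of graphs chooses a reduced word of length `j` for
every (oriented) edge of every graph of the sequence. -/
abbrev Labelling (Ω : ∀ n, SimpleGraph (V n)) (k j : ℕ) : Type :=
  (Σ n, (Ω n).edgeSet) → RedWord k j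

/-- The product measure: all the labels are independent and uniform on `T^j`. -/
noncomputable def labellingMeasure (Ω : ∀ n, SimpleGraph (V n)) (k j : ℕ) :
    Measure (Labelling Ω k j) :=
  Measure.infinitePi fun _ => uniformOn (Set.univ : Set (RedWord k j))

/-- The words read along all the closed paths in the graphs `Ω_n`. -/
def relators (Ω : ∀ n, SimpleGraph (V n)) (o : ∀ n, Orientation (Ω n)) {k j : ℕ}
    (α : Labelling Ω k j) : Set (FreeGroup (Fin k)) :=
  {w | ∃ (n : ℕ) (v : V n) (p : (Ω n).Walk v v), w = walkLabel (o n) (fun e => α ⟨n, e⟩) p}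

/-- The random monster group `Γ_α`: the quotient of `F_k` by the normal closure of the words
read along all the closed paths in the graphs `Ω_n`. -/
abbrev RandomMonster (Ω : ∀ n, SimpleGraph (V n)) (o : ∀ n, Orientation (Ω n)) {k j : ℕ}
    (α : Labelling Ω k j) : Type :=
  PresentedGroup (relators Ω o α)

/-- Every homomorphism from every finite-index subgroup `Γ'` of `Γ` to `G` has finite image. -/
def HereditarilyRigid (Γ : Type*) [Group Γ] (G : Type*) [Group G] : Prop :=
  ∀ Γ' : Subgroup Γ, Γ'.FiniteIndex → ∀ φ : Γ' →* G, (Set.range φ).Finite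

end Pool.Agent.Helper82.Monster
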