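import Pool.Agent.Helper82.MonsterDefs

open MeasureTheory ProbabilityTheory

namespace Pool.Agent.Helper82.Monster

variable {V : ℕ → Type}

/-! ### Words -/

instance finite_redWord (k j : ℕ) : Finite (RedWord k j) := by
  unfold RedWord
  have : Set.Finite {L : List (Fin k × Bool) | L.length = j ∧ FreeGroup.IsReduced L} :=
    (List.finite_length_eq (Fin k × Bool) j).subset (fun L hL => hL.1)
  exact this.to_subtype


lemma mk_replicate {k : ℕ} (a : Fin k) (n : ℕ) :
    FreeGroup.mk (List.replicate n (a, true)) = (FreeGroup.of a) ^ n := by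
  induction n with
  | zero => simp [FreeGroup.one_eq_mk]
  | succ n ih =>
    rw [List.replicate_succ, pow_succ', ← ih]
    simp [FreeGroup.of, FreeGroup.mul_mk]

lemma exists_word {k j : ℕ} (hj : 1 ≤ j) (a b : Fin k) (s : Bool) (h : a = b → s = true) :
    ∃ w : RedWord k j, w.toFree = (FreeGroup.of a) ^ (j - 1) * FreeGroup.mk [(b, s)] := by
  refine ⟨⟨List.replicate (j - 1) (a, true) ++ [(b, s)], ?_, ?_⟩, ?_⟩
  · simp; omega
  · unfold FreeGroup.IsReduced
    rw [List.isChain_append]
    refine ⟨List.isChain_replicate_of_rel _ (by simp), List.isChain_singleton _, ?_⟩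
    intro x hx y hy
    have hx' : x ∈ List.replicate (j - 1) (a, true) := List.mem_of_getLast? hx
    have hx'' : x = (a, true) := List.eq_of_mem_replicate hx'
    have hy' : y = (b, s) := by simpa using hy.symm
    subst hx''
    subst hy'
    intro hab
    exact (h hab).symm
  · unfold RedWord.toFree
    rw [← FreeGroup.mul_mk, mk_replicate]

lemma nonempty_redWord {k j : ℕ} (hk : 2 ≤ k) (hj : 1 ≤ j) : Nonempty (RedWord k j) := by
  obtain ⟨w, -⟩ := exists_word (k := k) hj ⟨0, by omega⟩ ⟨0, by omega⟩ true (fun _ => rfl)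
  exact ⟨w⟩

/-- The product measure on labellings is a probability measure. -/
lemma isProbabilityMeasure_labellingMeasure {k j : ℕ} (hk : 2 ≤ k) (hj : 1 ≤ j)
    (Ω : ∀ n, SimpleGraph (V n)) : IsProbabilityMeasure (labellingMeasure Ω k j) := by
  have : Nonempty (RedWord k j) := nonempty_redWord hk hj
  unfold labellingMeasure
  infer_instance

lemma exists_two_words {k j : ℕ} (hk : 2 ≤ k) (hj : 1 ≤ j) (N : Subgroup (FreeGroup (Fin k)))
    [N.Normal] (hN : N.index = 0) :
    ∃ w₁ w₂ : RedWord k j, w₁.toFree * (w₂.toFree)⁻¹ ∉ N := by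
  by_contra hcon
  push Not at hcon
  set π : FreeGroup (Fin k) →* FreeGroup (Fin k) ⧸ N := QuotientGroup.mk' N with hπ
  have key : ∀ w₁ w₂ : RedWord k j, π w₁.toFree = π w₂.toFree := by
    intro w₁ w₂
    have h := hcon w₁ w₂
    rw [← QuotientGroup.eq_one_iff] at h
    have h' : π (w₁.toFree * (w₂.toFree)⁻¹) = 1 := h
    rw [map_mul, map_inv, mul_inv_eq_one] at h'
    exact h'
  -- any two letters extending the same power agree
  have step : ∀ (a b c : Fin k) (s t : Bool), (a = b → s = true) → (a = c → t = true) →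
      π (FreeGroup.mk [(b, s)]) = π (FreeGroup.mk [(c, t)]) := by
    intro a b c s t hs ht
    obtain ⟨w₁, h₁⟩ := exists_word (j := j) hj a b s hs
    obtain ⟨w₂, h₂⟩ := exists_word (j := j) hj a c t ht
    have := key w₁ w₂
    rw [h₁, h₂, map_mul, map_mul] at this
    exact mul_left_cancel this
  set a₀ : Fin k := ⟨0, by omega⟩
  set a₁ : Fin k := ⟨1, by omega⟩
  have h01 : a₀ ≠ a₁ := by simp [a₀, a₁]
  set t := π (FreeGroup.of a₀) with ht
  have hgen : ∀ i : Fin k, π (FreeGroup.of i) = t := by
    intro i
    exact step a₀ i a₀ true true (fun _ => rfl) (fun _ => rfl)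
  have hinv : t⁻¹ = t := by
    have h1 : π (FreeGroup.mk [(a₁, false)]) = t :=
      step a₀ a₁ a₀ false true (fun h => absurd h h01) (fun _ => rfl)
    have h2 : FreeGroup.mk [(a₁, false)] = (FreeGroup.of a₁)⁻¹ := by
      simp [FreeGroup.of, FreeGroup.inv_mk, FreeGroup.invRev]
    rw [h2, map_inv, hgen a₁] at h1
    exact h1
  have htt : t * t = 1 := by
    nth_rewrite 1 [← hinv]
    simp
  have hall : ∀ x : FreeGroup (Fin k), π x = 1 ∨ π x = t := by
    intro x
    induction x using FreeGroup.induction_on with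
    | C1 => left; simp
    | of i => right; exact hgen i
    | inv_of i _ => right; rw [map_inv, hgen i, hinv]
    | mul x y hx hy =>
      rw [map_mul]
      rcases hx with hx | hx <;> rcases hy with hy | hy <;> rw [hx, hy]
      · left; simp
      · right; simp
      · right; simp
      · left; exact htt
  have hfin : Finite (FreeGroup (Fin k) ⧸ N) := by
    have : (Set.univ : Set (FreeGroup (Fin k) ⧸ N)) ⊆ {1, t} := by
      intro q _
      obtain ⟨x, rfl⟩ := QuotientGroup.mk'_surjective N q
      exact hall x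
    exact Set.finite_univ_iff.1 ((Set.toFinite {1, t}).subset this)
  rw [Subgroup.index_eq_zero_iff_infinite] at hN
  exact not_finite (FreeGroup (Fin k) ⧸ N)

/-! ### Measure of the blocks -/

lemma map_uniform {T : Type} [Finite T] [MeasurableSpace T] [MeasurableSingletonClass T]
    (σ : Equiv.Perm T) :
    (uniformOn (Set.univ : Set T)).map σ = uniformOn (Set.univ : Set T) := by
  classical
  have := Fintype.ofFinite T
  have hm : Measurable σ := measurable_of_finite _
  ext s hs
  rw [Measure.map_apply hm hs, uniformOn_univ, uniformOn_univ]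
  congr 1
  rw [Measure.count_apply (hm hs), Measure.count_apply hs]
  congr 1
  exact Set.encard_preimage_of_bijective σ.bijective s

lemma block_bound {E T : Type} [Finite E] [DecidableEq E] [Finite T] [Nonempty T] [MeasurableSpace T]
    [MeasurableSingletonClass T] (e : E) (B : Set (E → T))
    (hB : ∀ x : E → T, ∃ t, (fun i => if i = e then t else x i) ∉ B) :
    Measure.infinitePi (fun _ : E => uniformOn (Set.univ : Set T)) B
      ≤ 1 - (Nat.card (Equiv.Perm T) : ENNReal)⁻¹ := by
  classical
  have := Fintype.ofFinite E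
  have := Fintype.ofFinite T
  set μ := Measure.infinitePi (fun _ : E => uniformOn (Set.univ : Set T)) with hμ
  have hmeas : ∀ s : Set (E → T), MeasurableSet s := fun s => s.toFinite.measurableSet
  -- the measure preserving maps
  have hpres : ∀ σ : Equiv.Perm T, μ {x | (fun i => if i = e then σ (x i) else x i) ∈ Bᶜ} = μ Bᶜ := by
    intro σ
    have h1 := Measure.infinitePi_map_pi (μ := fun _ : E => uniformOn (Set.univ : Set T))
      (f := fun i => if i = e then (σ : T → T) else id) (fun i => measurable_of_finite _)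
    have h2 : (fun i : E => (uniformOn (Set.univ : Set T)).map
        (if i = e then (σ : T → T) else id)) = fun _ : E => uniformOn (Set.univ : Set T) := by
      funext i
      by_cases hi : i = e
      · simp only [hi, if_true]; exact map_uniform σ
      · simp [hi]
    rw [h2] at h1
    conv_rhs => rw [hμ, ← h1]
    rw [Measure.map_apply (measurable_of_finite _) (hmeas _)]
    congr 1
    ext x
    simp only [Set.mem_ofPred_eq, Set.mem_preimage]
    have : (fun i => if i = e then σ (x i) else x i)
        = fun i => (if i = e then (σ : T → T) else id) (x i) := by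
      funext i
      by_cases hi : i = e <;> simp [hi]
    rw [this]
  have hcov : (Set.univ : Set (E → T)) ⊆
      ⋃ σ : Equiv.Perm T, {x | (fun i => if i = e then σ (x i) else x i) ∈ Bᶜ} := by
    intro x _
    obtain ⟨t, ht⟩ := hB x
    refine Set.mem_iUnion.2 ⟨Equiv.swap (x e) t, ?_⟩
    have : (fun i => if i = e then (Equiv.swap (x e) t) (x i) else x i)
        = (fun i => if i = e then t else x i) := by
      funext i
      by_cases hi : i = e
      · simp [hi]
      · simp [hi]
    simp only [Set.mem_ofPred_eq, this]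
    convert ht
  have h1 : (1 : ENNReal) ≤ (Nat.card (Equiv.Perm T) : ENNReal) * μ Bᶜ := by
    calc (1 : ENNReal) = μ Set.univ := by simp [hμ]
      _ ≤ μ (⋃ σ : Equiv.Perm T, {x | (fun i => if i = e then σ (x i) else x i) ∈ Bᶜ}) :=
          measure_mono hcov
      _ ≤ ∑ σ : Equiv.Perm T, μ {x | (fun i => if i = e then σ (x i) else x i) ∈ Bᶜ} :=
          measure_iUnion_fintype_le _ _
      _ = (Nat.card (Equiv.Perm T) : ENNReal) * μ Bᶜ := by
          rw [Finset.sum_congr rfl (fun σ _ => hpres σ)]
          simp [Nat.card_eq_fintype_card]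
  have hpos : (Nat.card (Equiv.Perm T) : ENNReal) ≠ 0 := by
    simp [Nat.card_eq_fintype_card, Fintype.card_ne_zero]
  have h2 : (Nat.card (Equiv.Perm T) : ENNReal)⁻¹ ≤ μ Bᶜ := by
    rw [ENNReal.inv_le_iff_le_mul] <;> simp_all
  have h3 : μ B = 1 - μ Bᶜ := by
    have := prob_compl_eq_one_sub (μ := μ) (hmeas Bᶜ)
    simpa using this
  rw [h3]
  exact tsub_le_tsub_left h2 1

/-! ### An edge on a cycle -/

lemma exists_good_edge {W : Type} [Fintype W] {G : SimpleGraph W} [G.LocallyFinite] {d : ℕ}
    (hd : 3 ≤ d) (hconn : G.Connected) (hreg : G.IsRegularOfDegree d) (o : Orientation G) :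
    ∃ (e : G.edgeSet) (p : G.Walk (o.dart e).snd (o.dart e).fst), e.1 ∉ p.edges := by
  classical
  by_contra hcon
  push Not at hcon
  have hac : G.IsAcyclic := by
    rw [SimpleGraph.isAcyclic_iff_forall_isBridge]
    intro e he
    have h2 := o.edge_dart ⟨e, he⟩
    have h3 := hcon ⟨e, he⟩
    have h4 : s((o.dart ⟨e, he⟩).snd, (o.dart ⟨e, he⟩).fst) = e := by
      rw [Sym2.eq_swap]
      exact h2
    rw [← h4, SimpleGraph.isBridge_iff_forall_walk_mem_edges]
    intro p
    have := h3 p
    rwa [h4]
  have htree : G.IsTree := ⟨hconn, hac⟩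
  obtain ⟨v⟩ := hconn.nonempty
  have hdeg : G.degree v = d := hreg v
  have hne : (G.neighborFinset v).Nonempty := by
    rw [← Finset.card_pos, SimpleGraph.card_neighborFinset_eq_degree, hdeg]
    omega
  obtain ⟨w, hw⟩ := hne
  have hadj : G.Adj v w := by simpa using hw
  have : Nontrivial W := ⟨v, w, hadj.ne⟩
  obtain ⟨u, -, -, hu, -⟩ := htree.exists_ne_and_degree_eq_one
  rw [hreg u] at hu
  omega

lemma dartLabel_congr {W : Type} {G : SimpleGraph W} {k j : ℕ} (o : Orientation G)
    {α β : G.edgeSet → RedWord k j} (d : G.Dart)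
    (h : α ⟨d.edge, d.edge_mem⟩ = β ⟨d.edge, d.edge_mem⟩) :
    dartLabel o α d = dartLabel o β d := by
  unfold dartLabel
  rw [h]

lemma walkLabel_congr {W : Type} {G : SimpleGraph W} {k j : ℕ} (o : Orientation G)
    {α β : G.edgeSet → RedWord k j} {u v : W} (p : G.Walk u v)
    (h : ∀ e : G.edgeSet, e.1 ∈ p.edges → α e = β e) :
    walkLabel o α p = walkLabel o β p := by
  unfold walkLabel
  congr 1
  apply List.map_congr_left
  intro d hd
  apply dartLabel_congr
  apply h
  exact List.mem_map_of_mem hd

/-- For a fixed normal subgroup `N` of infinite index of `F_k`, almost surely not all the words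
read along the closed paths lie in `N`. -/
lemma ae_not_subset {d k j : ℕ} (hd : 3 ≤ d) (hk : 2 ≤ k) (hj : 1 ≤ j)
    [∀ n, Fintype (V n)] (Ω : ∀ n, SimpleGraph (V n)) [∀ n, (Ω n).LocallyFinite]
    (hconn : ∀ n, (Ω n).Connected) (hreg : ∀ n, (Ω n).IsRegularOfDegree d)
    (o : ∀ n, Orientation (Ω n)) (N : Subgroup (FreeGroup (Fin k))) [N.Normal]
    (hN : N.index = 0) :
    ∀ᵐ α ∂labellingMeasure Ω k j, ¬ relators Ω o α ⊆ (N : Set (FreeGroup (Fin k))) := by
  classical
  have : Nonempty (RedWord k j) := nonempty_redWord hk hj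
  obtain ⟨w₁, w₂, hw⟩ := exists_two_words hk hj N hN
  have hedge := fun n => exists_good_edge hd (hconn n) (hreg n) (o n)
  choose e p hp using hedge
  -- the block events
  let B : ∀ n, Set ((Ω n).edgeSet → RedWord k j) := fun n =>
    {x | (x (e n)).toFree * walkLabel (o n) x (p n) ∈ N}
  have hB : ∀ n (x : (Ω n).edgeSet → RedWord k j), ∃ t,
      (fun i => if i = e n then t else x i) ∉ B n := by
    intro n x
    have hwalk : ∀ t : RedWord k j,
        walkLabel (o n) (fun i => if i = e n then t else x i) (p n) =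
        walkLabel (o n) x (p n) := by
      intro t
      apply walkLabel_congr
      intro i hi
      have : i ≠ e n := by
        rintro rfl
        exact hp n hi
      simp [this]
    by_contra hcon
    push Not at hcon
    have h1 := hcon w₁
    have h2 := hcon w₂
    apply hw
    have h3 : w₁.toFree * walkLabel (o n) x (p n) ∈ N := by
      have := h1
      simp only [B, Set.mem_ofPred_eq, if_true] at this
      convert this using 2
      exact (hwalk w₁).symm
    have h4 : w₂.toFree * walkLabel (o n) x (p n) ∈ N := by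
      have := h2
      simp only [B, Set.mem_ofPred_eq, if_true] at this
      convert this using 2
      exact (hwalk w₂).symm
    have h5 := N.mul_mem h3 (N.inv_mem h4)
    have h6 : w₁.toFree * walkLabel (o n) x (p n) * (w₂.toFree * walkLabel (o n) x (p n))⁻¹
      = w₁.toFree * (w₂.toFree)⁻¹ := by group
    rwa [h6] at h5
  set c : ENNReal := 1 - (Nat.card (Equiv.Perm (RedWord k j)) : ENNReal)⁻¹ with hc
  have hc1 : c < 1 := by
    rw [hc]
    apply ENNReal.sub_lt_self ENNReal.one_ne_top one_ne_zero
    simp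
  let ν : ∀ n, Measure ((Ω n).edgeSet → RedWord k j) := fun n =>
    Measure.infinitePi (fun _ : (Ω n).edgeSet => uniformOn (Set.univ : Set (RedWord k j)))
  have hbound : ∀ n, ν n (B n) ≤ c := fun n => block_bound (e n) (B n) (hB n)
  have hmeasB : ∀ n, MeasurableSet (B n) := fun n => (B n).toFinite.measurableSet
  -- the bad event is contained in the preimage of a box
  have hsub : {α : Labelling Ω k j | relators Ω o α ⊆ (N : Set (FreeGroup (Fin k)))} ⊆
      (MeasurableEquiv.piCurry (fun (n : ℕ) (_ : (Ω n).edgeSet) => RedWord k j)) ⁻¹'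
        (Set.univ.pi B) := by
    intro α hα n _
    simp only [Set.mem_ofPred_eq] at hα
    let q : (Ω n).Walk ((o n).dart (e n)).fst ((o n).dart (e n)).fst :=
      SimpleGraph.Walk.cons ((o n).dart (e n)).adj (p n)
    have hq : walkLabel (o n) (fun i => α ⟨n, i⟩) q ∈ N := hα ⟨n, _, q, rfl⟩
    have hd' : dartLabel (o n) (fun i => α ⟨n, i⟩) ((o n).dart (e n)) = (α ⟨n, e n⟩).toFree := by
      have he : (⟨((o n).dart (e n)).edge, ((o n).dart (e n)).edge_mem⟩ : (Ω n).edgeSet) = e n :=
        Subtype.ext ((o n).edge_dart (e n))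
      unfold dartLabel
      rw [he, if_pos rfl]
    have hq' : walkLabel (o n) (fun i => α ⟨n, i⟩) q =
        (α ⟨n, e n⟩).toFree * walkLabel (o n) (fun i => α ⟨n, i⟩) (p n) := by
      rw [← hd']
      simp [walkLabel, q, SimpleGraph.Walk.darts_cons]
    rw [hq'] at hq
    exact hq
  have hle : ∀ m : ℕ, labellingMeasure Ω k j
      {α | relators Ω o α ⊆ (N : Set (FreeGroup (Fin k)))} ≤ c ^ m := by
    intro m
    calc labellingMeasure Ω k j {α | relators Ω o α ⊆ (N : Set (FreeGroup (Fin k)))}
        ≤ labellingMeasure Ω k j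
          ((MeasurableEquiv.piCurry (fun (n : ℕ) (_ : (Ω n).edgeSet) => RedWord k j)) ⁻¹'
            (((Finset.range m : Finset ℕ) : Set ℕ).pi B)) := by
          apply measure_mono
          intro α hα n _
          exact hsub hα n trivial
      _ = (labellingMeasure Ω k j).map
            (MeasurableEquiv.piCurry (fun (n : ℕ) (_ : (Ω n).edgeSet) => RedWord k j))
            (((Finset.range m : Finset ℕ) : Set ℕ).pi B) := by
          rw [MeasurableEquiv.map_apply]
      _ = Measure.infinitePi ν (((Finset.range m : Finset ℕ) : Set ℕ).pi B) := by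
          rw [labellingMeasure, Measure.infinitePi_map_piCurry
            (μ := fun (n : ℕ) (_ : (Ω n).edgeSet) => uniformOn (Set.univ : Set (RedWord k j)))]
      _ = ∏ n ∈ Finset.range m, ν n (B n) := Measure.infinitePi_pi _ (fun n _ => hmeasB n)
      _ ≤ ∏ n ∈ Finset.range m, c := Finset.prod_le_prod' (fun n _ => hbound n)
      _ = c ^ m := by simp
  rw [ae_iff]
  simp only [not_not]
  refine le_antisymm ?_ zero_le
  exact ge_of_tendsto' (ENNReal.tendsto_pow_atTop_nhds_zero_of_lt_one hc1) hle

/-! ### Countability -/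

lemma countable_hom (K : Type) (G : Type*) [Group K] [Group G] [Group.FG K] [Countable G] :
    Countable (K →* G) := by
  obtain ⟨S, hS⟩ := Group.fg_def.1 (inferInstance : Group.FG K)
  let F : (K →* G) → (S → G) := fun f s => f s
  have hF : Function.Injective F := by
    intro f g hfg
    apply MonoidHom.eq_of_eqOn_dense hS
    intro x hx
    exact congrFun hfg ⟨x, hx⟩
  exact hF.countable

lemma countable_finiteIndex (F : Type) [Group F] [Group.FG F] [Countable F] :
    Countable {K : Subgroup F // K.FiniteIndex} := by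
  let f : Finset F → Subgroup F := fun S => Subgroup.closure (S : Set F)
  have hsub : {K : Subgroup F | K.FiniteIndex} ⊆ Set.range f := by
    intro K hK
    have : K.FiniteIndex := hK
    have hfg : Group.FG K := inferInstance
    obtain ⟨S, hS⟩ := (Group.fg_iff_subgroup_fg K).1 hfg
    exact ⟨S, hS⟩
  exact ((Set.countable_range f).mono hsub).to_subtype

universe u

/-- **Hereditary super-rigidity of the random monster group with respect to all countable
groups.** -/
theorem main (d k j : ℕ) (hd : 3 ≤ d) (hk : 2 ≤ k) (hj : 1 ≤ j)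
    (V : ℕ → Type) [∀ n, Fintype (V n)]
    (Ω : ∀ n, SimpleGraph (V n)) [∀ n, (Ω n).LocallyFinite]
    (hconn : ∀ n, (Ω n).Connected) (hreg : ∀ n, (Ω n).IsRegularOfDegree d)
    (o : ∀ n, Orientation (Ω n))
    {ι : Type} [Countable ι] (G : ι → Type u) [∀ i, Group (G i)] [∀ i, Countable (G i)] :
    ∀ᵐ α ∂labellingMeasure Ω k j, ∀ i : ι, HereditarilyRigid (RandomMonster Ω o α) (G i) := by
  have hcF : Countable (FreeGroup (Fin k)) := inferInstance
  have hcK : Countable {K : Subgroup (FreeGroup (Fin k)) // K.FiniteIndex} :=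
    countable_finiteIndex _
  have hcH : ∀ (i : ι) (K : {K : Subgroup (FreeGroup (Fin k)) // K.FiniteIndex}),
      Countable (K.1 →* G i) := by
    intro i K
    have := K.2
    exact countable_hom _ _
  have hae : ∀ᵐ α ∂labellingMeasure Ω k j,
      ∀ (i : ι) (K : {K : Subgroup (FreeGroup (Fin k)) // K.FiniteIndex}) (ψ : K.1 →* G i),
        (ψ.ker.map K.1.subtype).normalCore.index = 0 →
        ¬ relators Ω o α ⊆ ((ψ.ker.map K.1.subtype).normalCore : Set (FreeGroup (Fin k))) := by
    rw [ae_all_iff]
    intro i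
    rw [ae_all_iff]
    intro K
    have := hcH i K
    rw [ae_all_iff]
    intro ψ
    by_cases h : (ψ.ker.map K.1.subtype).normalCore.index = 0
    · filter_upwards [ae_not_subset hd hk hj Ω hconn hreg o _ h] with α hα _
      exact hα
    · exact Filter.Eventually.of_forall fun α h' => absurd h' h
  filter_upwards [hae] with α hα i Γ' hΓ' φ
  -- pull everything back to the free group
  set R := Subgroup.normalClosure (relators Ω o α) with hR
  let π : FreeGroup (Fin k) →* RandomMonster Ω o α := PresentedGroup.mk (relators Ω o α)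
  have hπ : Function.Surjective π := PresentedGroup.mk_surjective _
  let K : Subgroup (FreeGroup (Fin k)) := Γ'.comap π
  have hK : K.FiniteIndex :=
    ⟨by rw [Subgroup.index_comap_of_surjective Γ' hπ]; exact hΓ'.index_ne_zero⟩
  let ρ : K →* Γ' := π.subgroupComap Γ'
  have hρ : Function.Surjective ρ := by
    rintro ⟨y, hy⟩
    obtain ⟨x, rfl⟩ := hπ y
    exact ⟨⟨x, hy⟩, rfl⟩
  let ψ : K →* G i := φ.comp ρ
  have hrange : φ.range = ψ.range := by
    ext y
    constructor
    · rintro ⟨x, rfl⟩
      obtain ⟨z, rfl⟩ := hρ x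
      exact ⟨z, rfl⟩
    · rintro ⟨z, rfl⟩
      exact ⟨ρ z, rfl⟩
  set L : Subgroup (FreeGroup (Fin k)) := ψ.ker.map K.subtype with hL
  -- the relators lie in `L`
  have hRL : R ≤ L := by
    intro r hr
    have h1 : π r = 1 := PresentedGroup.mk_eq_one_iff.2 hr
    have hrK : r ∈ K := by
      change π r ∈ Γ'
      rw [h1]
      exact Γ'.one_mem
    refine ⟨⟨r, hrK⟩, ?_, rfl⟩
    change φ (ρ ⟨r, hrK⟩) = 1
    have : ρ ⟨r, hrK⟩ = 1 := Subtype.ext h1
    rw [this, map_one]
  have hRN : R ≤ L.normalCore := Subgroup.normal_le_normalCore.2 hRL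
  have hindex : L.normalCore.index ≠ 0 := by
    intro h0
    exact hα i ⟨K, hK⟩ ψ h0 (Subgroup.subset_normalClosure.trans hRN)
  have hLindex : L.index ≠ 0 := by
    intro h0
    apply hindex
    exact Nat.eq_zero_of_zero_dvd (h0 ▸ Subgroup.index_dvd_of_le L.normalCore_le)
  have hker : ψ.ker.index ≠ 0 := by
    intro h0
    apply hLindex
    have := Subgroup.index_map_subtype (H := K) ψ.ker
    rw [hL, this, h0, zero_mul]
  have : ψ.ker.FiniteIndex := ⟨hker⟩
  have hfin : Finite (K ⧸ ψ.ker) := inferInstance
  have hfin' : Finite ψ.range :=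
    Finite.of_equiv _ (QuotientGroup.quotientKerEquivRange ψ).toEquiv
  rw [← hrange] at hfin'
  rw [← MonoidHom.coe_range]
  exact hfin'

end Pool.Agent.Helper82.Monster
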