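import Mathlib

namespace Pool.Agent.Helper82.OmegaAlg

universe u

/-- An `Ω`-algebra structure on the `k`-module `A`: every `n`-ary operation symbol `ω ∈ Ω n` acts
as a `k`-multilinear map `A^n → A`. -/
abbrev Ops (k : Type u) [CommRing k] (Ω : ℕ → Type) (A : Type u) [AddCommGroup A] [Module k A] :
    Type u :=
  ∀ n, Ω n → MultilinearMap k (fun _ : Fin n => A) A

variable {k : Type u} [CommRing k] {Ω : ℕ → Type}
variable {A : Type u} [AddCommGroup A] [Module k A]
variable {B : Type u} [AddCommGroup B] [Module k B]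

/-- Homomorphisms: `k`-linear maps commuting with all operations. -/
def IsHom (α : Ops k Ω A) (β : Ops k Ω B) (f : A →ₗ[k] B) : Prop :=
  ∀ (n : ℕ) (ω : Ω n) (a : Fin n → A), f (α n ω a) = β n ω (fun i => f (a i))

/-- Isomorphic `Ω`-algebras. -/
def Isomorphic (α : Ops k Ω A) (β : Ops k Ω B) : Prop :=
  ∃ e : A ≃ₗ[k] B, IsHom α β e.toLinearMap

/-- The formal `Ω`-monomials in the variables `x_0, x_1, …`. -/
inductive OmegaMonomial (Ω : ℕ → Type) : Type
  | var : ℕ → OmegaMonomial Ω
  | op : (n : ℕ) → Ω n → (Fin n → OmegaMonomial Ω) → OmegaMonomial Ω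

/-- The value of a monomial under a substitution `x_i ↦ a i`. -/
def eval (α : Ops k Ω A) (a : ℕ → A) : OmegaMonomial Ω → A
  | .var i => a i
  | .op n ω m => α n ω (fun i => eval α a (m i))

/-- `Id_Ω(A)`: the elements of the free `Ω`-algebra (the free `k`-module on the monomials) that
vanish under every substitution of elements of `A`. -/
def identities (α : Ops k Ω A) : Set (OmegaMonomial Ω →₀ k) :=
  {f | ∀ a : ℕ → A, f.sum (fun m c => c • eval α a m) = 0}

/-- `(S, σ)` is a proper section of `(A, α)`: there is a subalgebra `(R, ρ)` of `(A, α)` and a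
surjective homomorphism `π` from it to `(S, σ)` (so `S ≅ R / ker π`), and not both `R = A` and
`ker π = 0`. -/
def IsProperSection (σ : Ops k Ω B) (α : Ops k Ω A) : Prop :=
  ∃ (R : Submodule k A) (ρ : Ops k Ω R) (π : R →ₗ[k] B),
    IsHom ρ α R.subtype ∧ IsHom ρ σ π ∧ Function.Surjective π ∧
      ¬ (R = ⊤ ∧ LinearMap.ker π = ⊥)

/-- `(A, α)` is critical: it does not lie in the variety generated by its proper sections, i.e. it
violates some common identity of them. -/
def IsCritical (α : Ops k Ω A) : Prop :=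
  ∃ f : OmegaMonomial Ω →₀ k,
    (∀ (S : Type u) [AddCommGroup S] [Module k S] (σ : Ops k Ω S),
      IsProperSection σ α → f ∈ identities σ) ∧ f ∉ identities α

/-- The reduct `(A, Ω)` of an `Ω'`-algebra, where `Ω ⊆ Ω'`. -/
def reduct {Ω' : ℕ → Type} (α : Ops k Ω' A) (Ω : ∀ n, Set (Ω' n)) : Ops k (fun n => Ω n) A :=
  fun n ω => α n ω.1

end Pool.Agent.Helper82.OmegaAlg
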