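import Pool.Agent.Helper82.OmegaAlgDefs

namespace Pool.Agent.Helper82.OmegaAlg

universe u

variable {k : Type u} [CommRing k] {Ω : ℕ → Type}
variable {A : Type u} [AddCommGroup A] [Module k A]
variable {B : Type u} [AddCommGroup B] [Module k B]

/-! ### The example -/

/-- Two binary operation symbols. -/
inductive Sig : ℕ → Type
  | bracket : Sig 2
  | form : Sig 2

/-- The subsignature consisting of the first symbol. -/
def Sub : ∀ n, Set (Sig n)
  | _ => fun ω => match ω with
    | .bracket => True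
    | .form => False

section ops
variable (k) (κ : Type u) [CommRing κ] [Algebra k κ]

/-- `(x, y) ↦ (x₁ y₂ - x₂ y₁) z`. -/
def bracketOp : MultilinearMap k (fun _ : Fin 2 => κ × κ × κ) (κ × κ × κ) where
  toFun a := (0, 0, (a 0).1 * (a 1).2.1 - (a 0).2.1 * (a 1).1)
  map_update_add' := by
    intro _ a i x y
    fin_cases i <;> simp <;> ring
  map_update_smul' := by
    intro _ a i c x
    fin_cases i <;> simp [smul_sub]

/-- `(x, y) ↦ (x₁ y₁ + ε x₂ y₂) z`. -/
def formOp (ε : κ) : MultilinearMap k (fun _ : Fin 2 => κ × κ × κ) (κ × κ × κ) where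
  toFun a := (0, 0, (a 0).1 * (a 1).1 + ε * ((a 0).2.1 * (a 1).2.1))
  map_update_add' := by
    intro _ a i x y
    fin_cases i <;> simp <;> ring
  map_update_smul' := by
    intro _ a i c x
    fin_cases i <;> simp [smul_add]

/-- The algebra `A_ε`. -/
def alg (ε : κ) : Ops k Sig (κ × κ × κ) := fun _ ω =>
  match ω with
    | .bracket => bracketOp k κ
    | .form => formOp k κ ε

end ops

section identities
variable (κ : Type u) [CommRing κ] [Algebra k κ]

/-- The degree one part of a monomial evaluated at a sequence of scalars. -/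
def lin (s : ℕ → κ) : OmegaMonomial Sig → κ
  | .var i => s i
  | .op _ _ _ => 0

/-- The contribution of the first operation. -/
def dpart (s t : ℕ → κ) : OmegaMonomial Sig → κ
  | .op _ .bracket m => lin κ s (m 0) * lin κ t (m 1) - lin κ t (m 0) * lin κ s (m 1)
  | _ => 0

/-- The contribution of the second operation. -/
def qpart (s : ℕ → κ) : OmegaMonomial Sig → κ
  | .op _ .form m => lin κ s (m 0) * lin κ s (m 1)
  | _ => 0

lemma eval_fst (ε : κ) (s t r : ℕ → κ) (m : OmegaMonomial Sig) :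
    (eval (alg k κ ε) (fun i => (s i, t i, r i)) m).1 = lin κ s m := by
  cases m with
  | var i => rfl
  | op n ω m => cases ω <;> rfl

lemma eval_snd (ε : κ) (s t r : ℕ → κ) (m : OmegaMonomial Sig) :
    (eval (alg k κ ε) (fun i => (s i, t i, r i)) m).2.1 = lin κ t m := by
  cases m with
  | var i => rfl
  | op n ω m => cases ω <;> rfl

lemma eval_bracket (ε : κ) (a : ℕ → κ × κ × κ) (m : Fin 2 → OmegaMonomial Sig) :
    eval (alg k κ ε) a (OmegaMonomial.op 2 .bracket m) =
      (0, 0, (eval (alg k κ ε) a (m 0)).1 * (eval (alg k κ ε) a (m 1)).2.1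
        - (eval (alg k κ ε) a (m 0)).2.1 * (eval (alg k κ ε) a (m 1)).1) := rfl

lemma eval_form (ε : κ) (a : ℕ → κ × κ × κ) (m : Fin 2 → OmegaMonomial Sig) :
    eval (alg k κ ε) a (OmegaMonomial.op 2 .form m) =
      (0, 0, (eval (alg k κ ε) a (m 0)).1 * (eval (alg k κ ε) a (m 1)).1
        + ε * ((eval (alg k κ ε) a (m 0)).2.1 * (eval (alg k κ ε) a (m 1)).2.1)) := rfl

lemma eval_eq (ε : κ) (s t r : ℕ → κ) (m : OmegaMonomial Sig) :
    eval (alg k κ ε) (fun i => (s i, t i, r i)) m =
      (lin κ s m, lin κ t m,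
        lin κ r m + dpart κ s t m + (qpart κ s m + ε * qpart κ t m)) := by
  cases m with
  | var i => simp [lin, dpart, qpart, eval]
  | op n ω m =>
    have h0 := eval_fst (k := k) κ ε s t r
    have h1 := eval_snd (k := k) κ ε s t r
    cases ω with
    | bracket =>
      rw [eval_bracket, h0, h1, h0, h1]
      change _ = (0, 0, 0 + (lin κ s (m 0) * lin κ t (m 1) - lin κ t (m 0) * lin κ s (m 1))
          + (0 + ε * 0))
      simp
    | form =>
      rw [eval_form, h0, h1, h0, h1]
      change _ = (0, 0, 0 + 0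
          + (lin κ s (m 0) * lin κ s (m 1) + ε * (lin κ t (m 0) * lin κ t (m 1))))
      simp

/-- Linear extension of a `κ`-valued function on monomials. -/
noncomputable def ext (g : OmegaMonomial Sig → κ) (f : OmegaMonomial Sig →₀ k) : κ :=
  f.sum (fun m c => c • g m)

lemma sum_eq (ε : κ) (s t r : ℕ → κ) (f : OmegaMonomial Sig →₀ k) :
    f.sum (fun m c => c • eval (alg k κ ε) (fun i => (s i, t i, r i)) m) =
      (ext κ (lin κ s) f, ext κ (lin κ t) f,
        ext κ (lin κ r) f + ext κ (dpart κ s t) f +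
          (ext κ (qpart κ s) f + ε * ext κ (qpart κ t) f)) := by
  unfold ext Finsupp.sum
  simp only [eval_eq]
  refine Prod.ext ?_ (Prod.ext ?_ ?_)
  · simp [Prod.fst_sum]
  · simp [Prod.fst_sum, Prod.snd_sum]
  · simp only [Prod.snd_sum, Prod.smul_snd, smul_add, Finset.sum_add_distrib, Finset.mul_sum,
      mul_smul_comm]

/-- The identities of `A_ε` do not depend on `ε`. -/
lemma mem_identities (ε : κ) (f : OmegaMonomial Sig →₀ k) :
    f ∈ identities (alg k κ ε) ↔
      (∀ s : ℕ → κ, ext κ (lin κ s) f = 0) ∧ (∀ s t : ℕ → κ, ext κ (dpart κ s t) f = 0) ∧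
        (∀ s : ℕ → κ, ext κ (qpart κ s) f = 0) := by
  have hd0 : ∀ s : ℕ → κ, dpart κ s 0 = 0 := by
    intro s
    funext m
    have hl : ∀ m', lin κ 0 m' = 0 := by intro m'; cases m' <;> rfl
    cases m with
    | var i => rfl
    | op n ω m => cases ω <;> simp [dpart, hl]
  have hq0 : qpart κ 0 = 0 := by
    funext m
    have hl : ∀ m', lin κ 0 m' = 0 := by intro m'; cases m' <;> rfl
    cases m with
    | var i => rfl
    | op n ω m => cases ω <;> simp [qpart, hl]
  have he0 : ext κ 0 f = 0 := by simp [ext, Finsupp.sum]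
  constructor
  · intro hf
    have h1 : ∀ s t r : ℕ → κ, ((ext κ (lin κ s) f, ext κ (lin κ t) f,
        ext κ (lin κ r) f + ext κ (dpart κ s t) f +
          (ext κ (qpart κ s) f + ε * ext κ (qpart κ t) f)) : κ × κ × κ) = 0 := by
      intro s t r
      rw [← sum_eq]
      exact hf _
    have hL : ∀ s : ℕ → κ, ext κ (lin κ s) f = 0 := fun s => congrArg Prod.fst (h1 s s s)
    have h2 : ∀ s t : ℕ → κ, ext κ (dpart κ s t) f +
          (ext κ (qpart κ s) f + ε * ext κ (qpart κ t) f) = 0 := by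
      intro s t
      have := congrArg (fun x => x.2.2) (h1 s t s)
      simp only [hL, zero_add] at this
      exact this
    have hQ : ∀ s : ℕ → κ, ext κ (qpart κ s) f = 0 := by
      intro s
      have := h2 s 0
      simp only [hd0, hq0, he0, mul_zero, add_zero, zero_add] at this
      exact this
    refine ⟨hL, ?_, hQ⟩
    intro s t
    have := h2 s t
    simp only [hQ, mul_zero, add_zero] at this
    exact this
  · rintro ⟨hL, hD, hQ⟩ a
    have ha : a = fun i => ((fun i => (a i).1) i, (fun i => (a i).2.1) i, (fun i => (a i).2.2) i) :=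
      rfl
    rw [ha, sum_eq, hL, hL, hL, hD, hQ, hQ]
    simp

end identities

/-! ### Criticality -/

section critical
variable (κ : Type u) [Field κ] [Algebra k κ]

/-- The symbol of the first operation in the subsignature. -/
def br : Sub 2 := ⟨.bracket, trivial⟩

/-- The determinant of the first two coordinates. -/
def dd (x y : κ × κ × κ) : κ := x.1 * y.2.1 - x.2.1 * y.1

lemma section_aux (hsurj : Function.Surjective (algebraMap k κ))
    {S : Type u} [AddCommGroup S] [Module k S] (β : MultilinearMap k (fun _ : Fin 2 => S) S)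
    (R : Submodule k (κ × κ × κ)) (π : R →ₗ[k] S)
    (hclosed : ∀ x y : κ × κ × κ, x ∈ R → y ∈ R → ((0, 0, dd κ x y) : κ × κ × κ) ∈ R)
    (hop : ∀ (x y : R), π ⟨(0, 0, dd κ x.1 y.1), hclosed x.1 y.1 x.2 y.2⟩ =
      β (fun i => if i = 0 then π x else π y))
    (hproper : ¬ (R = ⊤ ∧ LinearMap.ker π = ⊥)) (x y : R) :
    π ⟨(0, 0, dd κ x.1 y.1), hclosed x.1 y.1 x.2 y.2⟩ = 0 := by
  obtain ⟨δ, hδ⟩ : ∃ δ, δ = dd κ x.1 y.1 := ⟨_, rfl⟩
  have hδR : ((0, 0, δ) : κ × κ × κ) ∈ R := by rw [hδ]; exact hclosed _ _ x.2 y.2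
  have hgoal : (⟨(0, 0, dd κ x.1 y.1), hclosed x.1 y.1 x.2 y.2⟩ : R) = ⟨(0, 0, δ), hδR⟩ :=
    Subtype.ext (Prod.ext rfl (Prod.ext rfl hδ.symm))
  rw [hgoal]
  by_cases hδ0 : δ = 0
  · have : (⟨(0, 0, δ), hδR⟩ : R) = 0 := Subtype.ext (Prod.ext rfl (Prod.ext rfl hδ0))
    rw [this, map_zero]
  -- the submodule `R` is everything
  have hsmul : ∀ (c : κ) (v : κ × κ × κ), v ∈ R → ((c * v.1, c * v.2.1, c * v.2.2) :
      κ × κ × κ) ∈ R := by
    intro c v hv
    obtain ⟨r, rfl⟩ := hsurj c
    have h := R.smul_mem r hv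
    have h2 : r • v = ((algebraMap k κ r * v.1, algebraMap k κ r * v.2.1,
        algebraMap k κ r * v.2.2) : κ × κ × κ) := by
      refine Prod.ext ?_ (Prod.ext ?_ ?_) <;> simp [Algebra.smul_def]
    rwa [h2] at h
  have hz : ∀ c : κ, ((0, 0, c) : κ × κ × κ) ∈ R := by
    intro c
    have := hsmul (c / δ) _ hδR
    simpa [div_mul_cancel₀ _ hδ0] using this
  have hall : ∀ w : κ × κ × κ, w ∈ R := by
    rintro ⟨p, q, r⟩
    obtain ⟨⟨x1, x2, x3⟩, hxR⟩ := x
    obtain ⟨⟨y1, y2, y3⟩, hyR⟩ := y
    simp only [dd] at hδ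
    have hα := hsmul ((p * y2 - q * y1) / δ) _ hxR
    have hβ := hsmul ((x1 * q - x2 * p) / δ) _ hyR
    have h3 := hz (r - (p * y2 - q * y1) / δ * x3 - (x1 * q - x2 * p) / δ * y3)
    have := R.add_mem (R.add_mem hα hβ) h3
    convert this using 1
    refine Prod.ext ?_ (Prod.ext ?_ ?_)
    · simp only [Prod.mk_add_mk]
      field_simp
      rw [hδ]
      ring
    · simp only [Prod.mk_add_mk]
      field_simp
      rw [hδ]
      ring
    · simp only [Prod.mk_add_mk]
      ring
  have htop : R = ⊤ := by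
    rw [eq_top_iff]
    intro w _
    exact hall w
  -- the kernel is non-trivial
  have hker : LinearMap.ker π ≠ ⊥ := fun h => hproper ⟨htop, h⟩
  obtain ⟨v, hv, hv0⟩ := Submodule.exists_mem_ne_zero_of_ne_bot hker
  have hv1 : π v = 0 := hv
  have hzero : ∀ (u : R), β (fun i => if i = 0 then π u else π v) = 0 := by
    intro u
    apply MultilinearMap.map_coord_zero _ (1 : Fin 2)
    simpa using hv1
  have hfin : ∀ u : κ × κ × κ, dd κ u v.1 = δ → π ⟨(0, 0, δ), hδR⟩ = 0 := by
    intro u hu
    have h4 := hop ⟨u, hall u⟩ v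
    rw [hzero] at h4
    rw [← h4]
    congr 1
    exact Subtype.ext (Prod.ext rfl (Prod.ext rfl hu.symm))
  obtain ⟨⟨v1, v2, v3⟩, hvR⟩ := v
  by_cases h2 : v2 = 0
  · by_cases h1 : v1 = 0
    · -- `v` is a non-zero multiple of `z`
      have h3 : v3 ≠ 0 := by
        intro h3
        apply hv0
        apply Subtype.ext
        exact Prod.ext h1 (Prod.ext h2 h3)
      obtain ⟨r, hr⟩ := hsurj (δ / v3)
      have : (⟨((0, 0, δ) : κ × κ × κ), hδR⟩ : R) = r • ⟨(v1, v2, v3), hvR⟩ := by
        apply Subtype.ext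
        refine Prod.ext ?_ (Prod.ext ?_ ?_)
        · simp [h1]
        · simp [h2]
        · simp [Algebra.smul_def, hr, div_mul_cancel₀ _ h3]
      rw [this, map_smul, hv1, smul_zero]
    · apply hfin (0, -(δ / v1), 0)
      simp [dd, div_mul_cancel₀ _ h1]
  · apply hfin (δ / v2, 0, 0)
    simp [dd, div_mul_cancel₀ _ h2]

lemma critical_reduct (hsurj : Function.Surjective (algebraMap k κ)) (ε : κ) :
    IsCritical (reduct (alg k κ ε) Sub) := by
  -- the identity `[x₀, x₁] = 0` holds in all proper sections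
  refine ⟨Finsupp.single (.op 2 br (fun i => .var i)) 1, ?_, ?_⟩
  · rintro S _ _ σ ⟨R, ρ, π, hρ, hhom, hπ, hproper⟩ a
    rw [Finsupp.sum_single_index (by simp), one_smul]
    change σ 2 br (fun i => a i) = 0
    have hρ2 : ∀ x y : R, (ρ 2 br (fun i => if i = 0 then x else y)).1 =
        (0, 0, dd κ x.1 y.1) := fun x y => hρ 2 br (fun i => if i = 0 then x else y)
    have hclosed : ∀ x y : κ × κ × κ, x ∈ R → y ∈ R →
        ((0, 0, dd κ x y) : κ × κ × κ) ∈ R := by
      intro x y hx hy
      have := hρ2 ⟨x, hx⟩ ⟨y, hy⟩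
      rw [← this]
      exact Subtype.mem _
    have hop : ∀ (x y : R), π ⟨(0, 0, dd κ x.1 y.1),
        hclosed x.1 y.1 x.2 y.2⟩ = σ 2 br (fun i => if i = 0 then π x else π y) := by
      intro x y
      have h1 := hhom 2 br (fun i => if i = 0 then x else y)
      have h2 : (fun i : Fin 2 => π (if i = 0 then x else y)) =
          (fun i : Fin 2 => if i = 0 then π x else π y) := by
        funext i
        fin_cases i <;> rfl
      rw [h2] at h1
      rw [← h1]
      congr 1
      exact Subtype.ext (hρ2 x y).symm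
    obtain ⟨x, hx⟩ := hπ (a 0)
    obtain ⟨y, hy⟩ := hπ (a 1)
    have hxy : (fun i : Fin 2 => a i) = (fun i : Fin 2 => if i = 0 then π x else π y) := by
      funext i
      fin_cases i
      · exact hx.symm
      · exact hy.symm
    rw [hxy, ← hop x y]
    exact section_aux κ hsurj (σ 2 br) R π hclosed hop hproper x y
  · intro h
    have h1 := h (fun i => if i = 0 then (1, 0, 0) else (0, 1, 0))
    rw [Finsupp.sum_single_index (by simp), one_smul] at h1
    have h2 : ((0, 0, 1 * 1 - 0 * 0) : κ × κ × κ) = 0 := h1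
    have h3 := congrArg (fun x => x.2.2) h2
    simp at h3

end critical

section noniso
variable (κ : Type u) [Field κ] [Algebra k κ]

lemma not_isomorphic : ¬ Isomorphic (alg k κ 0) (alg k κ 1) := by
  rintro ⟨e, he⟩
  have hb : ∀ x y : κ × κ × κ, e ((0, 0, x.1 * y.2.1 - x.2.1 * y.1) : κ × κ × κ) =
      (0, 0, (e x).1 * (e y).2.1 - (e x).2.1 * (e y).1) := by
    intro x y
    exact he 2 .bracket (fun i => if i = 0 then x else y)
  have hf : ∀ x y : κ × κ × κ, e ((0, 0, x.1 * y.1 + 0 * (x.2.1 * y.2.1)) : κ × κ × κ) =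
      (0, 0, (e x).1 * (e y).1 + 1 * ((e x).2.1 * (e y).2.1)) := by
    intro x y
    exact he 2 .form (fun i => if i = 0 then x else y)
  -- `v = (0, 1, 0)` is in the radical of the form of the first algebra
  let v : κ × κ × κ := (0, 1, 0)
  have hv : ∀ w : κ × κ × κ, (e v).1 * w.1 + (e v).2.1 * w.2.1 = 0 := by
    intro w
    have h1 := hf v (e.symm w)
    have h2 : ((0, 0, v.1 * (e.symm w).1 + 0 * (v.2.1 * (e.symm w).2.1)) : κ × κ × κ) = 0 := by
      simp [v]
    rw [h2, map_zero, LinearEquiv.apply_symm_apply] at h1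
    have h3 := congrArg (fun x => x.2.2) h1
    simp only [one_mul] at h3
    exact h3.symm
  have hv1 : (e v).1 = 0 := by simpa using hv (1, 0, 0)
  have hv2 : (e v).2.1 = 0 := by simpa using hv (0, 1, 0)
  have h4 := hb (1, 0, 0) v
  rw [hv1, hv2] at h4
  have h5 : e ((0, 0, 1) : κ × κ × κ) = e 0 := by
    rw [map_zero]
    have h8 : ((0, 0, (1 : κ) * 1 - 0 * 0) : κ × κ × κ) = (0, 0, 1) := by simp
    have h9 : ((0, 0, (e ((1, 0, 0) : κ × κ × κ)).1 * 0 - (e ((1, 0, 0) : κ × κ × κ)).2.1 * 0) :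
        κ × κ × κ) = 0 := by simp
    rw [← h8, ← h9]
    exact h4
  have h6 := e.injective h5
  have h7 := congrArg (fun x => x.2.2) h6
  simp at h7

end noniso

/-- **Main result.** Over every non-trivial commutative ring `k` the answer to the question is
negative, already for finitely generated `k`-modules: there are two `Ω'`-algebra structures `α` and
`β` on one and the same finitely generated `k`-module with the same, critical, `Ω`-reduct and the
same `Ω'`-identities which are not isomorphic. -/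
theorem main (k : Type u) [CommRing k] [Nontrivial k] :
    ∃ (Ω' : ℕ → Type) (Ω : ∀ n, Set (Ω' n)) (A : Type u) (_ : AddCommGroup A) (_ : Module k A)
      (α β : Ops k Ω' A),
      (∃ n, 2 ≤ n ∧ (Ω n).Nonempty) ∧ Module.Finite k A ∧
      reduct α Ω = reduct β Ω ∧ IsCritical (reduct α Ω) ∧
      identities α = identities β ∧ ¬ Isomorphic α β := by
  obtain ⟨m, hm⟩ := Ideal.exists_maximal k
  let _ : Field (k ⧸ m) := Ideal.Quotient.field m
  have hsurj : Function.Surjective (algebraMap k (k ⧸ m)) := Ideal.Quotient.mk_surjective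
  refine ⟨Sig, Sub, (k ⧸ m) × (k ⧸ m) × (k ⧸ m), inferInstance, inferInstance, alg k (k ⧸ m) 0,
    alg k (k ⧸ m) 1, ⟨2, le_rfl, ⟨.bracket, trivial⟩⟩, inferInstance, ?_,
    critical_reduct _ hsurj 0, ?_, not_isomorphic _⟩
  · funext n ω
    obtain ⟨ω, hω⟩ := ω
    cases ω with
    | bracket => rfl
    | form => exact hω.elim
  · ext f
    rw [mem_identities, mem_identities]

end Pool.Agent.Helper82.OmegaAlg
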